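import Pool.Agent.Lib.helper3.DoubleOrth

set_option autoImplicit false

namespace Pool.Agent.Results.MP_8173ef_an.Counterexample

open MeasureTheory Filter Topology

/-- Lebesgue measure on the unit square. -/
noncomputable def sq : Measure (ℝ × ℝ) := volume.restrict (Set.Icc (0 : ℝ) 1 ×ˢ Set.Icc (0 : ℝ) 1)

/-- The rectangular partial sum over `i ≤ m`, `k ≤ n` (indices start at `0`). -/
def S (a : ℕ → ℕ → ℝ) (φ : ℕ → ℕ → ℝ × ℝ → ℝ) (m n : ℕ) (z : ℝ × ℝ) : ℝ :=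
  ∑ i ∈ Finset.range (m + 1), ∑ k ∈ Finset.range (n + 1), a i k * φ i k z

theorem result : ∃ (lam : ℕ → ℕ → ℝ) (φ : ℕ → ℕ → ℝ × ℝ → ℝ) (a : ℕ → ℕ → ℝ),
    (∀ i k, 0 < lam i k) ∧ (∀ i k, lam i k ≤ lam (i + 1) k) ∧ (∀ i k, lam i k ≤ lam i (k + 1)) ∧
    (∀ M : ℝ, ∃ K, ∀ i k, K ≤ i → K ≤ k → M ≤ lam i k) ∧
    (∀ i k, 0 ≤ lam (i + 1) (k + 1) - lam (i + 1) k - lam i (k + 1) + lam i k) ∧
    (∀ i k, MemLp (φ i k) 2 sq) ∧
    (∀ i k j l, ∫ z, φ i k z * φ j l z ∂sq = if (i, k) = (j, l) then 1 else 0) ∧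
    (∀ b : ℕ → ℕ → ℝ, Summable (fun p : ℕ × ℕ => b p.1 p.2 ^ 2) →
      ∀ᵐ z ∂sq, ∃ C : ℝ, ∀ m n, |S b φ m n z| / √(lam m n) ≤ C) ∧
    Summable (fun p : ℕ × ℕ => a p.1 p.2 ^ 2 * lam p.1 p.2) ∧
    ∀ᵐ z ∂sq, ¬ ∃ l : ℝ, Tendsto (fun p : ℕ × ℕ => S a φ p.1 p.2 z) atTop (𝓝 l) := by
  refine ⟨Lib.H3Double.lam, Lib.H3Double.φ, fun i k => Lib.H3Double.co (i, k),
    fun i k => one_pos.trans_le (Lib.H3Double.lam_one i k), fun i k => ?_, fun i k => ?_,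
    Lib.H3Double.lam_top, fun i k => ?_, Lib.H3Double.φ_mem,
    fun i k j l => Lib.H3Double.orth (i, k) (j, l), Lib.H3Double.growth,
    Lib.H3Double.co_summable, Lib.H3Double.diverge⟩
  · simp only [Lib.H3Double.lam, Finset.sum_range_succ _ (i + 1), add_le_add_iff_left,
      le_add_iff_nonneg_right]
    exact Finset.sum_nonneg fun _ _ => by positivity
  · simp only [Lib.H3Double.lam, Finset.sum_range_succ _ (k + 1), Finset.sum_add_distrib,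
      add_le_add_iff_left, le_add_iff_nonneg_right]
    exact Finset.sum_nonneg fun _ _ => by positivity
  · simp only [Lib.H3Double.lam, Finset.sum_range_succ _ (i + 1), Finset.sum_range_succ _ (k + 1),
      Finset.sum_add_distrib]
    split_ifs <;> linarith

end Pool.Agent.Results.MP_8173ef_an.Counterexample
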